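import Pool.Agent.Helper14.W5.StB

/-!
# Project P11 (levels `11^n`): dimensions

`SymP`, `NewSymP`, `NSP`, `evLP`, `SPHk`, ..., `SPB3a` of project W5 are for every prime `p` and are used as they are (`p = 11`).
-/

set_option autoImplicit false

namespace Pool.Agent.Helper76.P11

open Pool.Agent.Helper14.CV (Homog EqC act Tl)
open Pool.Agent.Helper14.W5

/-- The dimension of the new symbols of level `11^n` with `W = -1`, `* = +1`. -/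
def dd11 (n : ℕ) : ℕ :=
  if n = 0 then 0
  else if n = 1 then 1
  else if n = 2 then 3
  else if n % 2 = 1 then 50 * 121 ^ (n / 2 - 1) + 10 * 11 ^ (n / 2 - 1)
  else 550 * 121 ^ (n / 2 - 2) - 10 * 11 ^ (n / 2 - 2)

/-- `1 + ∑_{m ≤ n} dd11 m`; `DD11 1 = 2`, `DD11 (2k) = 5 t²`, `DD11 (2k+1) = 55 t² + 10 t`, `t = 11^(k-1)`. -/
def DD11 (n : ℕ) : ℕ := 1 + ∑ m ∈ Finset.range (n + 1), dd11 m

/-- The space of new symbols of level `p^n` modulo constants has dimension at most `dd n` (`n ≥ 3`). -/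
def UBP (p : ℕ) (dd : ℕ → ℕ) : Prop := ∀ n : ℕ, 3 ≤ n → ∃ Θ : NSP p n →ₗ[ℂ] (Fin (dd n) → ℂ),
  ∀ G : NSP p n, Θ G = 0 → EqC (G : ℤ → ℤ → ℂ) 0

/-- Small values (sanity). -/
theorem dd11_small : dd11 2 = 3 ∧ dd11 3 = 60 ∧ dd11 4 = 540 ∧ dd11 5 = 6160 ∧ dd11 6 = 66440 ∧
    DD11 1 = 2 ∧ DD11 2 = 5 ∧ DD11 3 = 65 ∧ DD11 4 = 605 ∧ DD11 5 = 6765 := by
  refine ⟨?_, ?_, ?_, ?_, ?_, ?_, ?_, ?_, ?_, ?_⟩ <;> simp [dd11, DD11, Finset.sum_range_succ]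

end Pool.Agent.Helper76.P11
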