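import Pool.Agent.Helper10.W3.M_Trq
import Pool.Agent.Helper38.CV.M_Far
import Pool.Agent.Helper84.P11.D1
import Pool.Agent.Helper83.P1C.StB
import Pool.Agent.Helper44.P11.M_BAL
import Pool.Agent.Helper80.P11.M_TYP
import Pool.Agent.Helper40.P11.M_DIMK
import Pool.Agent.Helper55.P11.M_SPLIT
import Pool.Agent.Helper45.P11.M_DIME
import Pool.Agent.Helper73.P11.M_DIMO
import Pool.Agent.Helper47.P11.M_REP
import Pool.Agent.Helper53.P11.M_E1A
import Pool.Agent.Helper89.P11.M_E1B
import Pool.Agent.Helper76.P11.M_O1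
import Pool.Agent.Helper56.P11.M_UB

/-!
# Levels `11^n`: the upper bound for the new symbols, assembled
-/

set_option autoImplicit false

namespace Pool.Agent.Helper76.P11

/-- The upper bound for the levels `11^n`. -/
theorem ub11 : UBP 11 dd11 := by
  have pla := Pool.Agent.Helper84.P11.plA
  have edg := Pool.Agent.Helper84.P11.edg
  have typ := Pool.Agent.Helper80.P11.hTyp
  have dimK := Pool.Agent.Helper40.P11.hDimK Pool.Agent.Helper10.W3.hTrq
  have split := Pool.Agent.Helper55.P11.hSplit
  have rep := Pool.Agent.Helper47.P11.hRep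
  have far := Pool.Agent.Helper38.CV.hFar
  exact Pool.Agent.Helper56.P11.hUB Pool.Agent.Helper44.P11.hBal
    (Pool.Agent.Helper53.P11.hE1A edg pla typ)
    (Pool.Agent.Helper89.P11.hE1B edg pla rep far)
    (Pool.Agent.Helper76.P11O.hO1 edg pla typ rep far)
    (Pool.Agent.Helper45.P11.hDimE typ dimK split)
    (Pool.Agent.Helper73.P11.hDimO typ dimK split)

/-- The same for the definition of `UBP` in the chain. -/
theorem ub11' : Pool.Agent.Helper83.P1C.UBP 11 dd11 := ub11

end Pool.Agent.Helper76.P11
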