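import Pool.Agent.Helper76.P11.StC

/-!
# Project P11, module O1 (symbols of odd exponent on the plane)
-/

set_option autoImplicit false

namespace Pool.Agent.Helper76.P11O

open Pool.Agent.Helper76.P11 Pool.Agent.Helper84.P11 Pool.Agent.Helper14.W5
open Pool.Agent.Helper14.CV (Homog EqC act Tl StFar)
open Pool.Agent.Helper28.WK (SymP)

private lemma eleven_pow_z (k : ℕ) : (11 : ZMod (11 ^ k)) ^ k = 0 := by
  have := ZMod.natCast_self (11 ^ k)
  push_cast at this
  exact this

private lemma eleven_top {k : ℕ} (hk : 1 ≤ k) : (11 : ZMod (11 ^ k)) ^ (k - 1) * 11 = 0 := by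
  rw [← pow_succ]
  have : k - 1 + 1 = k := by omega
  rw [this, eleven_pow_z]

private lemma unit1q (k : ℕ) (y : ZMod (11 ^ k)) : IsUnit (1 + 11 * y) := by
  have h : IsNilpotent (11 * y) := ⟨k, by rw [mul_pow, eleven_pow_z, zero_mul]⟩
  exact h.isUnit_one_add

private lemma unit_lin {k : ℕ} {a e t : ℤ} (h : a * e = 1 + 11 * t) (z : ZMod (11 ^ k)) :
    IsUnit ((a : ZMod (11 ^ k)) + 11 * z) := by
  have h1 := unit1q k ((t : ZMod (11 ^ k)) + z * e)
  have e1 : (1 : ZMod (11 ^ k)) + 11 * ((t : ZMod (11 ^ k)) + z * e) =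
      ((a : ZMod (11 ^ k)) + 11 * z) * e := by
    have h3 := congrArg (fun n : ℤ => (n : ZMod (11 ^ k))) h
    push_cast at h3
    linear_combination -h3
  rw [e1] at h1
  exact isUnit_of_mul_isUnit_left h1

private lemma ne1 {a b c d : ℤ} (h1 : a * d - 11 ^ (0 + 1) * b * c = 1) : a ≠ 0 ∨ 11 * c ≠ 0 := by
  by_contra hc
  push Not at hc
  rw [hc.1] at h1
  have : 11 ^ (0 + 1) * b * c = b * (11 * c) := by ring
  rw [this, hc.2] at h1
  norm_num at h1

private lemma ne2 {a b c d : ℤ} (h1 : a * d - 11 ^ (0 + 1) * b * c = 1) : b ≠ 0 ∨ d ≠ 0 := by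
  by_contra hc
  push Not at hc
  rw [hc.1, hc.2] at h1
  norm_num at h1

private lemma ne3 {a b c d : ℤ} (h1 : a * d - 11 ^ (0 + 1) * b * c = 1) :
    a + b * 2 ≠ 0 ∨ 11 * c + d * 2 ≠ 0 := by
  by_contra hc
  push Not at hc
  have : a * d - 11 ^ (0 + 1) * b * c = (a + b * 2) * d - b * (11 * c + d * 2) := by ring
  rw [this, hc.1, hc.2] at h1
  norm_num at h1

private lemma ne4 {a b c d : ℤ} (h1 : a * d - 11 ^ (0 + 1) * b * c = 1) :
    a + b * 3 ≠ 0 ∨ 11 * c + d * 3 ≠ 0 := by
  by_contra hc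
  push Not at hc
  have : a * d - 11 ^ (0 + 1) * b * c = (a + b * 3) * d - b * (11 * c + d * 3) := by ring
  rw [this, hc.1, hc.2] at h1
  norm_num at h1

private lemma nec {a b c d : ℤ} (h1 : a * d - 11 ^ (0 + 1) * b * c = 1) : c ≠ 0 ∨ a ≠ 0 := by
  by_contra hc
  push Not at hc
  rw [hc.1, hc.2] at h1
  norm_num at h1

private lemma ne6 {a b c d : ℤ} (h1 : a * d - 11 ^ (0 + 1) * b * c = 1) :
    3 * c + d ≠ 0 ∨ 3 * a + 11 * b ≠ 0 := by
  by_contra hc
  push Not at hc
  have : a * d - 11 ^ (0 + 1) * b * c = a * (3 * c + d) - c * (3 * a + 11 * b) := by ring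
  rw [this, hc.1, hc.2] at h1
  norm_num at h1

/-! ### coordinates -/

private lemma pl_ng {k : ℕ} {p : Pt k} {a b c d : ℤ} (h : Pl11 0 a b c d p.1 p.2) :
    Pl11 0 a (-b) (-c) d (ng p).1 (ng p).2 := by
  obtain ⟨h1, h2, h3⟩ := h
  refine ⟨by linear_combination h1, ?_, ?_⟩
  · push_cast
    rw [h2]
    simp only [ng]
    ring
  · push_cast
    rw [h3]
    simp only [ng]
    ring

private lemma pl_sw {k : ℕ} {p : Pt k} {a b c d : ℤ} (h : Pl11 0 a b c d p.1 p.2) :
    Pl11 0 d c b a (sw p).1 (sw p).2 := by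
  obtain ⟨h1, h2, h3⟩ := h
  exact ⟨by linear_combination h1, h3, h2⟩

private lemma pl_trp {k : ℕ} {p : Pt k} {A B C D a b c d : ℤ} (hM : a * d - 11 * b * c = 1)
    (h : Pl11 0 A B C D p.1 p.2) :
    Pl11 0 (A * a + 11 * B * c) (A * b + B * d) (C * a + D * c) (11 * C * b + D * d)
      (trp 0 a b c d p).1 (trp 0 a b c d p).2 := by
  obtain ⟨h1, h2, h3⟩ := h
  have u1 : IsUnit ((a : ZMod (11 ^ k)) + 11 ^ (0 + 1) * c * p.1) := by
    have := unit_lin (k := k) (a := a) (e := d) (t := b * c) (by linear_combination hM)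
      ((c : ZMod (11 ^ k)) * p.1)
    have e : (a : ZMod (11 ^ k)) + 11 ^ (0 + 1) * c * p.1 = a + 11 * ((c : ZMod (11 ^ k)) * p.1) := by
      ring
    rw [e]
    exact this
  have u2 : IsUnit ((d : ZMod (11 ^ k)) + 11 ^ (0 + 1) * b * p.2) := by
    have := unit_lin (k := k) (a := d) (e := a) (t := b * c) (by linear_combination hM)
      ((b : ZMod (11 ^ k)) * p.2)
    have e : (d : ZMod (11 ^ k)) + 11 ^ (0 + 1) * b * p.2 = d + 11 * ((b : ZMod (11 ^ k)) * p.2) := by
      ring
    rw [e]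
    exact this
  have i1 := ZMod.inv_mul_of_unit _ u1
  have i2 := ZMod.inv_mul_of_unit _ u2
  refine ⟨by linear_combination (a * d - 11 * b * c) * h1 + hM, ?_, ?_⟩
  · simp only [trp]
    push_cast
    rw [h2]
    linear_combination (-(A : ZMod (11 ^ k)) * (b + d * p.1)) * i1
  · simp only [trp]
    push_cast
    rw [h3]
    linear_combination (-(D : ZMod (11 ^ k)) * (c + a * p.2)) * i2

private lemma pl_dR {k : ℕ} {p : Pt k} {a b c d : ℤ} (h : Pl11 0 a b c d p.1 p.2) :
    Pl11 0 a (-a - b) (-c) (11 * c + d) (dR 0 p).1 (dR 0 p).2 := by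
  have h1 := pl_trp (a := 1) (b := -1) (c := 0) (d := 1) (by norm_num) (pl_ng h)
  have e1 : a * 1 + 11 * -b * 0 = a := by ring
  have e2 : a * -1 + -b * 1 = -a - b := by ring
  have e3 : -c * 1 + d * 0 = -c := by ring
  have e4 : 11 * -c * -1 + d * 1 = 11 * c + d := by ring
  rw [e1, e2, e3, e4] at h1
  exact h1

private lemma pl_cO {k : ℕ} {p : Pt k} {a b c d : ℤ} (h : Pl11 0 a b c d p.1 p.2) :
    Pl11 0 (11 * c + 2 * d) (-(d + 5 * c)) (a + 2 * b) (-(5 * a + 11 * b)) (cO p).1 (cO p).2 := by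
  have h1 := pl_trp (a := 2) (b := -1) (c := 1) (d := -5) (by norm_num) (pl_sw h)
  have e1 : d * 2 + 11 * c * 1 = 11 * c + 2 * d := by ring
  have e2 : d * -1 + c * -5 = -(d + 5 * c) := by ring
  have e3 : b * 2 + a * 1 = a + 2 * b := by ring
  have e4 : 11 * b * -1 + a * -5 = -(5 * a + 11 * b) := by ring
  rw [e1, e2, e3, e4] at h1
  exact h1

private lemma pl_rO {k : ℕ} {p : Pt k} {a b c d : ℤ} (h : Pl11 0 a b c d p.1 p.2) :
    Pl11 0 (11 * c + 3 * d) (-(d + 4 * c)) (-(a + 3 * b)) (4 * a + 11 * b) (rO p).1 (rO p).2 := by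
  have h1 := pl_trp (a := 3) (b := -1) (c := -1) (d := 4) (by norm_num) (pl_ng (pl_sw h))
  have e1 : d * 3 + 11 * -c * -1 = 11 * c + 3 * d := by ring
  have e2 : d * -1 + -c * 4 = -(d + 4 * c) := by ring
  have e3 : -b * 3 + a * -1 = -(a + 3 * b) := by ring
  have e4 : 11 * -b * -1 + a * 4 = 4 * a + 11 * b := by ring
  rw [e1, e2, e3, e4] at h1
  exact h1

theorem hO1 : StHO1 := by
  intro he ha _ht hrep hfar k G hk hG
  obtain ⟨hS, hP1, hP2, hW, hst⟩ := hG
  have hom := hS.1
  have neg : ∀ p q : ℤ, (p ≠ 0 ∨ q ≠ 0) → G (-p) (-q) = G p q := by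
    intro p q hpq
    have := hom (-1) p q (by norm_num) hpq
    rw [← this]
    congr 1 <;> ring
  -- values at all nonzero paths
  have val : ∀ (u1 u2 v1 v2 : ℤ), (u1 ≠ 0 ∨ u2 ≠ 0) → (v1 ≠ 0 ∨ v2 ≠ 0) →
      ∀ (x y : ZMod (11 ^ k)) (a b c d : ℤ), Pl11 0 a b c d x y →
      edge11 0 u1 u2 v1 v2 G x y = G (a * u1 + b * u2) (11 * c * u1 + d * u2) -
        G (a * v1 + b * v2) (11 * c * v1 + d * v2) := by
    intro u1 u2 v1 v2 hu hv x y a b c d h
    have := he ℂ inferInstance 0 k k G hS u1 u2 v1 v2 hu hv x y a b c d h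
    simpa using this
  have vf : ∀ (p : Pt k) (a b c d : ℤ), Pl11 0 a b c d p.1 p.2 →
      edge11 0 1 0 0 1 G p.1 p.2 = G a (11 * c) - G b d := by
    intro p a b c d h
    have := val 1 0 0 1 (Or.inl one_ne_zero) (Or.inr one_ne_zero) _ _ a b c d h
    simpa using this
  have vl : ∀ (p : Pt k) (a b c d : ℤ), Pl11 0 a b c d p.1 p.2 →
      edge11 0 1 0 1 2 G p.1 p.2 = G a (11 * c) - G (a + b * 2) (11 * c + d * 2) := by
    intro p a b c d h
    have := val 1 0 1 2 (Or.inl one_ne_zero) (Or.inl one_ne_zero) _ _ a b c d h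
    simpa using this
  have ve : ∀ (p : Pt k) (a b c d : ℤ), Pl11 0 a b c d p.1 p.2 →
      edge11 0 1 0 1 3 G p.1 p.2 = G a (11 * c) - G (a + b * 3) (11 * c + d * 3) := by
    intro p a b c d h
    have := val 1 0 1 3 (Or.inl one_ne_zero) (Or.inl one_ne_zero) _ _ a b c d h
    simpa using this
  -- sums over translates
  have anti : ∀ (u1 u2 v1 v2 : ℤ), (u1 ≠ 0 ∨ u2 ≠ 0) → (v1 ≠ 0 ∨ v2 ≠ 0) →
      (fun p : Pt k => edge11 0 u1 u2 v1 v2 G p.1 p.2) ∈ anti11 k := by
    intro u1 u2 v1 v2 hu hv p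
    obtain ⟨x, y⟩ := p
    have h0 := ha 0 k k x y
    obtain ⟨h1, h2, h3⟩ := h0
    have hz := eleven_top hk
    have hz' := eleven_pow_z k
    set X : ℤ := (x.val : ℤ) with hX
    set Y : ℤ := rY11 0 x y with hY
    set D : ℤ := 1 + 11 ^ (0 + 1) * X * Y with hD
    -- the images of the vectors
    have hne : ∀ w1 w2 : ℤ, (w1 ≠ 0 ∨ w2 ≠ 0) →
        (1 * w1 + X * w2 ≠ 0 ∨ 11 * Y * w1 + D * w2 ≠ 0) := by
      intro w1 w2 hw
      exact Pool.Agent.Helper14.CV.ne_zero_of_det (a := 1) (b := X) (c := 11 * Y) (d := D)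
        (by
          have : 1 * D - X * (11 * Y) = 1 := by linear_combination h1
          rw [this]
          exact one_ne_zero) hw
    constructor
    · have hpl : ∀ i : ℕ, Pl11 0 (1 + i * 11 ^ (k - 1) * (11 * Y)) (X + i * 11 ^ (k - 1) * D) Y D
          (x + (i : ZMod (11 ^ k)) * 11 ^ (k - 1)) y := by
        intro i
        refine ⟨by linear_combination h1, ?_, h3⟩
        push_cast
        rw [h2, hD]
        push_cast
        linear_combination ((i : ZMod (11 ^ k)) * X * Y -
          (x + (i : ZMod (11 ^ k)) * 11 ^ (k - 1)) * i * Y) * hz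
      have e := hP1.diff (hne u1 u2 hu) (hne v1 v2 hv)
      simp only [Finset.sum_apply, act, Pi.zero_apply, sub_self] at e
      rw [← Finset.sum_sub_distrib] at e
      refine (Finset.sum_congr rfl fun i _ => ?_).trans e
      show edge11 0 u1 u2 v1 v2 G (x + (i : ZMod (11 ^ k)) * 11 ^ (k - 1)) y = _
      rw [val u1 u2 v1 v2 hu hv _ _ _ _ _ _ (hpl i)]
      congr 2 <;> ring
    · have hpl : ∀ i : ℕ, Pl11 0 1 X (Y + i * 11 ^ (k - 1)) (D + i * 11 ^ k * X) x
          (y + (i : ZMod (11 ^ k)) * 11 ^ (k - 1)) := by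
        intro i
        have h7 : (11 : ℤ) ^ k = 11 ^ (k - 1) * 11 := by
          rw [← pow_succ]
          congr 1
          omega
        refine ⟨by rw [h7]; linear_combination h1, h2, ?_⟩
        push_cast
        rw [h3, hD]
        push_cast
        linear_combination (-(y + (i : ZMod (11 ^ k)) * 11 ^ (k - 1)) * i * X) * hz' -
          ((i : ZMod (11 ^ k)) * X * Y) * hz
      have e := hP2.diff (hne u1 u2 hu) (hne v1 v2 hv)
      simp only [Finset.sum_apply, act, Pi.zero_apply, sub_self] at e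
      rw [← Finset.sum_sub_distrib] at e
      refine (Finset.sum_congr rfl fun i _ => ?_).trans e
      show edge11 0 u1 u2 v1 v2 G x (y + (i : ZMod (11 ^ k)) * 11 ^ (k - 1)) = _
      rw [val u1 u2 v1 v2 hu hv _ _ _ _ _ _ (hpl i)]
      have h7 : (11 : ℤ) ^ k = 11 ^ (k - 1) * 11 := by
        rw [← pow_succ]
        congr 1
        omega
      rw [h7]
      congr 2 <;> ring
  have exP : ∀ p : Pt k, ∃ a b c d : ℤ, Pl11 0 a b c d p.1 p.2 := fun p =>
    ⟨_, _, _, _, ha 0 k k p.1 p.2⟩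
  -- the reflection in the imaginary axis, in coordinates of vectors
  have hs : ∀ p q p' q' : ℤ, (p ≠ 0 ∨ q ≠ 0) → (p' ≠ 0 ∨ q' ≠ 0) →
      G (-p) q - G (-p') q' = G p q - G p' q' := by
    intro p q p' q' h h'
    have e := hst.diff h h'
    unfold act at e
    have e1 : G (-1 * p + 0 * q) (0 * p + 1 * q) = G (-p) q := by congr 1 <;> ring
    have e2 : G (-1 * p' + 0 * q') (0 * p' + 1 * q') = G (-p') q' := by congr 1 <;> ring
    rw [e1, e2] at e
    exact e
  have hw : ∀ p q p' q' : ℤ, (p ≠ 0 ∨ q ≠ 0) → (p' ≠ 0 ∨ q' ≠ 0) →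
      G q (11 * p) - G q' (11 * p') = G p' q' - G p q := by
    intro p q p' q' h h'
    have e := hW.diff h h'
    unfold act at e
    have e1 : G (0 * p + -1 * q) (11 * p + 0 * q) = G (-q) (11 * p) := by congr 1 <;> ring
    have e2 : G (0 * p' + -1 * q') (11 * p' + 0 * q') = G (-q') (11 * p') := by congr 1 <;> ring
    rw [e1, e2, hs q (11 * p) q' (11 * p')
      (by rcases h with h | h
          · exact Or.inr (mul_ne_zero (by norm_num) h)
          · exact Or.inl h)
      (by rcases h' with h | h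
          · exact Or.inr (mul_ne_zero (by norm_num) h)
          · exact Or.inl h)] at e
    simp only [Pi.neg_apply] at e
    rw [e]
    ring
  have h7h : ∀ p q : ℤ, (p ≠ 0 ∨ q ≠ 0) → G (11 * p) (11 * q) = G p q := fun p q h =>
    hom 11 p q (by norm_num) h
  refine ⟨⟨⟨anti 1 0 0 1 (Or.inl one_ne_zero) (Or.inr one_ne_zero), fun p => ?_⟩,
    ⟨anti 1 0 1 2 (Or.inl one_ne_zero) (Or.inl one_ne_zero), fun p => ?_⟩,
    ⟨anti 1 0 1 3 (Or.inl one_ne_zero) (Or.inl one_ne_zero), fun p => ?_⟩, fun p => ?_⟩, ?_⟩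
  · -- f
    obtain ⟨a, b, c, d, h⟩ := exP p
    have n1 := ne1 h.1
    have n2 := ne2 h.1
    rw [one_mul]
    refine ⟨?_, ?_⟩
    · show edge11 0 1 0 0 1 G (ng p).1 (ng p).2 = edge11 0 1 0 0 1 G p.1 p.2
      rw [vf _ _ _ _ _ (pl_ng h), vf _ _ _ _ _ h]
      have e := hs a (11 * c) b d n1 n2
      have e1 : G a (11 * -c) = G (-a) (11 * c) := by
        have := neg (-a) (11 * c) (by
          rcases n1 with h | h
          · exact Or.inl (neg_ne_zero.2 h)
          · exact Or.inr h)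
        rw [← this]
        congr 1 <;> ring
      rw [e1, e]
    · show edge11 0 1 0 0 1 G (sw p).1 (sw p).2 = edge11 0 1 0 0 1 G p.1 p.2
      rw [vf _ _ _ _ _ (pl_sw h), vf _ _ _ _ _ h]
      have e := hw b d a (11 * c) n2 n1
      rw [h7h c a (by
        rcases n1 with h | h
        · exact Or.inr h
        · left
          intro h'
          apply h
          rw [h', mul_zero])] at e
      exact e
  · -- l
    obtain ⟨a, b, c, d, h⟩ := exP p
    have n1 := ne1 h.1
    have n3 := ne3 h.1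
    rw [one_mul]
    refine ⟨?_, ?_⟩
    · show edge11 0 1 0 1 2 G (dR 0 p).1 (dR 0 p).2 = edge11 0 1 0 1 2 G p.1 p.2
      rw [vl _ _ _ _ _ (pl_dR h), vl _ _ _ _ _ h]
      have e := hs a (11 * c) (a + b * 2) (11 * c + d * 2) n1 n3
      have e1 : G a (11 * -c) = G (-a) (11 * c) := by
        have := neg (-a) (11 * c) (by
          rcases n1 with h | h
          · exact Or.inl (neg_ne_zero.2 h)
          · exact Or.inr h)
        rw [← this]
        congr 1 <;> ring
      have e2 : G (a + (-a - b) * 2) (11 * -c + (11 * c + d) * 2) =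
          G (-(a + b * 2)) (11 * c + d * 2) := by
        congr 1 <;> ring
      rw [e1, e2, e]
    · show edge11 0 1 0 1 2 G (cO p).1 (cO p).2 = edge11 0 1 0 1 2 G p.1 p.2
      rw [vl _ _ _ _ _ (pl_cO h), vl _ _ _ _ _ h]
      have e := hw (a + b * 2) (11 * c + d * 2) a (11 * c) n3 n1
      rw [h7h c a (by
        rcases n1 with h | h
        · exact Or.inr h
        · left
          intro h'
          apply h
          rw [h', mul_zero])] at e
      have e1 : G (11 * c + 2 * d) (11 * (a + 2 * b)) = G (11 * c + d * 2) (11 * (a + b * 2)) := by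
        congr 1 <;> ring
      have e2 : G (11 * c + 2 * d + -(d + 5 * c) * 2) (11 * (a + 2 * b) + -(5 * a + 11 * b) * 2) =
          G c a := by
        congr 1 <;> ring
      rw [e1, e2, e]
  · -- e
    obtain ⟨a, b, c, d, h⟩ := exP p
    have n1 := ne1 h.1
    have n4 := ne4 h.1
    have nc := nec h.1
    rw [one_mul]
    show edge11 0 1 0 1 3 G (rO p).1 (rO p).2 = edge11 0 1 0 1 3 G p.1 p.2
    rw [ve _ _ _ _ _ (pl_rO h), ve _ _ _ _ _ h]
    have e := hw (a + b * 3) (11 * c + d * 3) a (11 * c) n4 n1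
    rw [h7h c a nc] at e
    have n5 : 11 * c + d * 3 ≠ 0 ∨ 11 * (a + b * 3) ≠ 0 := by
      rcases n4 with h | h
      · exact Or.inr (mul_ne_zero (by norm_num) h)
      · exact Or.inl h
    have e0 := hs (11 * c + d * 3) (11 * (a + b * 3)) c a n5 nc
    have e1 : G (11 * c + 3 * d) (11 * -(a + 3 * b)) = G (-(11 * c + d * 3)) (11 * (a + b * 3)) := by
      have := neg (11 * c + d * 3) (-(11 * (a + b * 3))) (by
        rcases n5 with h | h
        · exact Or.inl h
        · exact Or.inr (neg_ne_zero.2 h))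
      rw [neg_neg] at this
      rw [this]
      congr 1 <;> ring
    have e2 : G (11 * c + 3 * d + -(d + 4 * c) * 3) (11 * -(a + 3 * b) + (4 * a + 11 * b) * 3) =
        G (-c) a := by
      congr 1 <;> ring
    rw [e1, e2, e0, e]
  · -- the relation
    obtain ⟨a, b, c, d, h⟩ := exP p
    have n1 := ne1 h.1
    have n2 := ne2 h.1
    have n4 := ne4 h.1
    have n6 := ne6 h.1
    have n5 : 11 * c + d * 3 ≠ 0 ∨ 11 * (a + b * 3) ≠ 0 := by
      rcases n4 with h | h
      · exact Or.inr (mul_ne_zero (by norm_num) h)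
      · exact Or.inl h
    have n7 : 3 * a + 11 * b ≠ 0 ∨ 11 * (3 * c + d) ≠ 0 := by
      rcases n6 with h | h
      · exact Or.inr (mul_ne_zero (by norm_num) h)
      · exact Or.inl h
    show edge11 0 1 0 1 3 G p.1 p.2 + edge11 0 1 0 1 3 G (sw p).1 (sw p).2 -
      edge11 0 1 0 1 2 G (rO p).1 (rO p).2 - edge11 0 1 0 0 1 G p.1 p.2 = 0
    rw [vf _ _ _ _ _ h, ve _ _ _ _ _ h, ve _ _ _ _ _ (pl_sw h), vl _ _ _ _ _ (pl_rO h)]
    have e1 := hw b d (3 * a + 11 * b) (11 * (3 * c + d)) n2 n7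
    rw [h7h (3 * c + d) (3 * a + 11 * b) n6] at e1
    have e2 := hw (a + b * 3) (11 * c + d * 3) (3 * a + 11 * b) (11 * (3 * c + d)) n4 n7
    rw [h7h (3 * c + d) (3 * a + 11 * b) n6] at e2
    have e3 := hs (11 * c + d * 3) (11 * (a + b * 3)) (3 * c + d) (3 * a + 11 * b) n5 n6
    have e4 : G (11 * c + 3 * d) (11 * -(a + 3 * b)) = G (-(11 * c + d * 3)) (11 * (a + b * 3)) := by
      have := neg (11 * c + d * 3) (-(11 * (a + b * 3))) (by
        rcases n5 with h | h
        · exact Or.inl h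
        · exact Or.inr (neg_ne_zero.2 h))
      rw [neg_neg] at this
      rw [this]
      congr 1 <;> ring
    have e5 : G (11 * c + 3 * d + -(d + 4 * c) * 2) (11 * -(a + 3 * b) + (4 * a + 11 * b) * 2) =
        G (-(3 * c + d)) (3 * a + 11 * b) := by
      have := neg (3 * c + d) (-(3 * a + 11 * b)) (by
        rcases n6 with h | h
        · exact Or.inl h
        · exact Or.inr (neg_ne_zero.2 h))
      rw [neg_neg] at this
      rw [this]
      congr 1 <;> ring
    have e6 : G (d + c * 3) (11 * b + a * 3) = G (3 * c + d) (3 * a + 11 * b) := by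
      congr 1 <;> ring
    rw [e4, e5, e6]
    linear_combination e1 - e2 - e3
  · -- injectivity
    intro h0
    have exC : ∀ a b c d : ℤ, a * d - 11 * b * c = 1 → ∃ p : Pt k, Pl11 0 a b c d p.1 p.2 := by
      intro a b c d h
      have ua := unit_lin (k := k) (a := a) (e := d) (t := b * c) (by linear_combination h) 0
      have ud := unit_lin (k := k) (a := d) (e := a) (t := b * c) (by linear_combination h) 0
      rw [mul_zero, add_zero] at ua ud
      refine ⟨((b : ZMod (11 ^ k)) * ((a : ZMod (11 ^ k)))⁻¹,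
        (c : ZMod (11 ^ k)) * ((d : ZMod (11 ^ k)))⁻¹), by linear_combination h, ?_, ?_⟩
      · show (b : ZMod (11 ^ k)) = (b : ZMod (11 ^ k)) * ((a : ZMod (11 ^ k)))⁻¹ * a
        rw [mul_assoc, ZMod.inv_mul_of_unit _ ua, mul_one]
      · show (c : ZMod (11 ^ k)) = (c : ZMod (11 ^ k)) * ((d : ZMod (11 ^ k)))⁻¹ * d
        rw [mul_assoc, ZMod.inv_mul_of_unit _ ud, mul_one]
    have keyf : ∀ a b c d : ℤ, a * d - 11 * b * c = 1 → G a (11 * c) = G b d := by
      intro a b c d h
      obtain ⟨p, hp⟩ := exC a b c d h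
      have e := vf p a b c d hp
      rw [(h0 p.1 p.2).1] at e
      exact sub_eq_zero.1 e.symm
    have keyl : ∀ a b c d : ℤ, a * d - 11 * b * c = 1 →
        G a (11 * c) = G (a + b * 2) (11 * c + d * 2) := by
      intro a b c d h
      obtain ⟨p, hp⟩ := exC a b c d h
      have e := vl p a b c d hp
      rw [(h0 p.1 p.2).2.1] at e
      exact sub_eq_zero.1 e.symm
    have keye : ∀ a b c d : ℤ, a * d - 11 * b * c = 1 →
        G a (11 * c) = G (a + b * 3) (11 * c + d * 3) := by
      intro a b c d h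
      obtain ⟨p, hp⟩ := exC a b c d h
      have e := ve p a b c d hp
      rw [(h0 p.1 p.2).2.2] at e
      exact sub_eq_zero.1 e.symm
    have nz : ∀ a b c d u v : ℤ, a * d - 11 * b * c = 1 → (u ≠ 0 ∨ v ≠ 0) →
        (a * u + b * v ≠ 0 ∨ 11 * c * u + d * v ≠ 0) := by
      intro a b c d u v h huv
      exact Pool.Agent.Helper14.CV.ne_zero_of_det (a := a) (b := b) (c := 11 * c) (d := d)
        (by
          have : a * d - b * (11 * c) = 1 := by linear_combination h
          rw [this]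
          exact one_ne_zero) huv
    have keym : ∀ (t : ℤ), (∀ a b c d : ℤ, a * d - 11 * b * c = 1 →
        G a (11 * c) = G (a + b * t) (11 * c + d * t)) → ∀ a b c d : ℤ, a * d - 11 * b * c = 1 →
        G a (11 * c) = G (a - b * t) (11 * c - d * t) := by
      intro t ht a b c d h
      have h1 := ht a (-b) (-c) d (by linear_combination h)
      have n1 : a ≠ 0 ∨ 11 * c ≠ 0 := by
        have := nz a b c d 1 0 h (Or.inl one_ne_zero)
        simpa using this
      have n5 : a - b * t ≠ 0 ∨ 11 * c - d * t ≠ 0 := by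
        have := nz a b c d 1 (-t) h (Or.inl one_ne_zero)
        have e1 : a * 1 + b * -t = a - b * t := by ring
        have e2 : 11 * c * 1 + d * -t = 11 * c - d * t := by ring
        rw [e1, e2] at this
        exact this
      have e := hs a (11 * c) (a - b * t) (11 * c - d * t) n1 n5
      have e1 : G a (11 * -c) = G (-a) (11 * c) := by
        have := neg (-a) (11 * c) (by
          rcases n1 with h | h
          · exact Or.inl (neg_ne_zero.2 h)
          · exact Or.inr h)
        rw [← this]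
        congr 1 <;> ring
      have e2 : G (a + -b * t) (11 * -c + d * t) = G (-(a - b * t)) (11 * c - d * t) := by
        have := neg (-(a - b * t)) (11 * c - d * t) (by
          rcases n5 with h | h
          · exact Or.inl (neg_ne_zero.2 h)
          · exact Or.inr h)
        rw [← this]
        congr 1 <;> ring
      rw [e1, e2] at h1
      rw [h1, sub_self] at e
      exact sub_eq_zero.1 e.symm
    apply hfar ℂ inferInstance G hom
    intro a b c d h
    obtain ⟨m, hm, α, β, γ, δ, hdet, ha', hb', hc', hd'⟩ := hrep.2.2 a b c d h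
    obtain ⟨F, hF⟩ : ∃ F : ℤ → ℤ → ℂ, ∀ u v, F u v = G (α * u + β * v) (11 * γ * u + δ * v) :=
      ⟨_, fun _ _ => rfl⟩
    have hdet' : α * δ - 11 * β * γ = 1 := hdet
    have Fn : ∀ u v : ℤ, (u ≠ 0 ∨ v ≠ 0) → F (-u) (-v) = F u v := by
      intro u v huv
      rw [hF, hF, ← neg _ _ (nz α β γ δ u v hdet' huv)]
      congr 1 <;> ring
    have f01 : F 0 1 = F 1 0 := by
      rw [hF, hF]
      have := keyf α β γ δ hdet'
      have e1 : G (α * 1 + β * 0) (11 * γ * 1 + δ * 0) = G α (11 * γ) := by congr 1 <;> ring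
      have e2 : G (α * 0 + β * 1) (11 * γ * 0 + δ * 1) = G β δ := by congr 1 <;> ring
      rw [e1, e2, this]
    have f11 : F 1 1 = F 1 0 := by
      rw [hF, hF]
      have := keyf α (α + β) γ (11 * γ + δ) (by linear_combination hdet')
      have e1 : G (α * 1 + β * 0) (11 * γ * 1 + δ * 0) = G α (11 * γ) := by congr 1 <;> ring
      have e2 : G (α * 1 + β * 1) (11 * γ * 1 + δ * 1) = G (α + β) (11 * γ + δ) := by
        congr 1 <;> ring
      rw [e1, e2, this]
    have fm11 : F (-1) 1 = F 1 0 := by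
      rw [hF, hF]
      have := keyf α (β - α) γ (δ - 11 * γ) (by linear_combination hdet')
      have e1 : G (α * 1 + β * 0) (11 * γ * 1 + δ * 0) = G α (11 * γ) := by congr 1 <;> ring
      have e2 : G (α * -1 + β * 1) (11 * γ * -1 + δ * 1) = G (β - α) (δ - 11 * γ) := by
        congr 1 <;> ring
      rw [e1, e2, this]
    have f12 : F 1 2 = F 1 0 := by
      rw [hF, hF]
      have := keyl α β γ δ hdet'
      have e1 : G (α * 1 + β * 0) (11 * γ * 1 + δ * 0) = G α (11 * γ) := by congr 1 <;> ring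
      have e2 : G (α * 1 + β * 2) (11 * γ * 1 + δ * 2) = G (α + β * 2) (11 * γ + δ * 2) := by
        congr 1 <;> ring
      rw [e1, e2, this]
    have f1m2 : F 1 (-2) = F 1 0 := by
      rw [hF, hF]
      have := keym 2 keyl α β γ δ hdet'
      have e1 : G (α * 1 + β * 0) (11 * γ * 1 + δ * 0) = G α (11 * γ) := by congr 1 <;> ring
      have e2 : G (α * 1 + β * -2) (11 * γ * 1 + δ * -2) = G (α - β * 2) (11 * γ - δ * 2) := by
        congr 1 <;> ring
      rw [e1, e2, this]
    have f13 : F 1 3 = F 1 0 := by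
      rw [hF, hF]
      have := keye α β γ δ hdet'
      have e1 : G (α * 1 + β * 0) (11 * γ * 1 + δ * 0) = G α (11 * γ) := by congr 1 <;> ring
      have e2 : G (α * 1 + β * 3) (11 * γ * 1 + δ * 3) = G (α + β * 3) (11 * γ + δ * 3) := by
        congr 1 <;> ring
      rw [e1, e2, this]
    have f1m3 : F 1 (-3) = F 1 0 := by
      rw [hF, hF]
      have := keym 3 keye α β γ δ hdet'
      have e1 : G (α * 1 + β * 0) (11 * γ * 1 + δ * 0) = G α (11 * γ) := by congr 1 <;> ring
      have e2 : G (α * 1 + β * -3) (11 * γ * 1 + δ * -3) = G (α - β * 3) (11 * γ - δ * 3) := by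
        congr 1 <;> ring
      rw [e1, e2, this]
    have fm10 : F (-1) 0 = F 1 0 := by
      have := Fn 1 0 (Or.inl one_ne_zero)
      simpa using this
    have f0m1 : F 0 (-1) = F 1 0 := by
      have := Fn 0 1 (Or.inr one_ne_zero)
      simpa [f01] using this
    have fm12 : F (-1) 2 = F 1 0 := by
      have := Fn 1 (-2) (Or.inl one_ne_zero)
      simpa [f1m2] using this
    have fm1m2 : F (-1) (-2) = F 1 0 := by
      have := Fn 1 2 (Or.inl one_ne_zero)
      simpa [f12] using this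
    have fm13 : F (-1) 3 = F 1 0 := by
      have := Fn 1 (-3) (Or.inl one_ne_zero)
      simpa [f1m3] using this
    have fm1m3 : F (-1) (-3) = F 1 0 := by
      have := Fn 1 3 (Or.inl one_ne_zero)
      simpa [f13] using this
    have e1 : G a c = F m.1 m.2.2.1 := by
      rw [hF, ha', hc']
    have e2 : G b d = F m.2.1 m.2.2.2 := by
      rw [hF, hb', hd']
    rw [e1, e2]
    simp only [LO, List.mem_cons, List.not_mem_nil, or_false] at hm
    rcases hm with rfl | rfl | rfl | rfl | rfl | rfl | rfl | rfl | rfl | rfl | rfl | rfl <;>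
      simp only [f01, f11, fm11, f12, f13, fm10, f0m1, fm12, fm1m2, fm13, fm1m3]

end Pool.Agent.Helper76.P11O
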