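import Pool.Agent.Helper76.P11.Defs
import Pool.Agent.Helper84.P11.StD1
import Pool.Agent.Helper78.W3.StC

/-!
# Project P11 (levels `11^n`): upper bound for new symbols

The shape of `Helper76/S7/StC.lean` (levels `7^n`; all modules closed: `Pool/Agent/*/S7/M_*.lean`) with `11` in place of `7`; `Pl11`, `rY11`, `edge11`, `S11PlA`, `S11PlU`, `S11Edg` are those of `Helper84/P11/StD1.lean`. `μ = 0` (odd exponents): the plane is `Γ \ Γ₀(11)`, `μ = 1` (even exponents): `Γ \ {(a b; c d) | 11 ∣ b, 11 ∣ c}`. RULE FOR REFLECTIONS.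
`val π = {u, v} = G(gu) - G(gv)` for the path `π` from `v` to `u`, `F_π(p)` the value at the coordinates `p` of `g`. `b = (0 1; 1 0)` (even exponents, `μ = 1`), `b = (0 1; 11 0)` (odd exponents, `μ = 0`): if `g` has coordinates `p = (x, y)`, then `b⁻¹ g b` has coordinates `sw p = (y, x)`, `* g *` has `ng p`, `g M` has `trp μ a b c d p` for
`M = (a 11^μ b; 11c d)` of determinant one. `G∘* ≈ G`, `G∘b ≈ -G`. So for `ρ = M`: the value of `G` at the path `g ρ π` is `F_π(trp M p)`; for `ρ = b M`: `-F_π(trp M (sw p))`; for `ρ = * M`: `F_π(trp M (ng p))`; for `ρ = b * M`: `-F_π(trp M (ng (sw p)))`. All relations and the dimensions `60` (odd, `m = 1`), `540` (even, `m = 1`) were checked by machine.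
-/

set_option autoImplicit false

namespace Pool.Agent.Helper76.P11

open Pool.Agent.Helper14.CV (Homog EqC act Tl StFar)
open Pool.Agent.Helper28.WK (SymP)
open Pool.Agent.Helper14.W5 (NewSymP NSP)
open Pool.Agent.Helper84.P11 (Pl11 rY11 edge11 S11PlA S11PlU S11Edg)

/-- Balanced new symbols, even exponent `n = 2k`. -/
def BalE (k : ℕ) (G : ℤ → ℤ → ℂ) : Prop :=
  SymP 11 k k G ∧ EqC (∑ i ∈ Finset.range 11, act 1 (i * 11 ^ (k - 1)) 0 1 G) 0 ∧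
    EqC (∑ i ∈ Finset.range 11, act 1 0 (i * 11 ^ (k - 1)) 1 G) 0 ∧
    EqC (act 0 (-1) 1 0 G) (-G) ∧ EqC (act (-1) 0 0 1 G) G

/-- Balanced new symbols, odd exponent `n = 2k+1`. -/
def BalO (k : ℕ) (G : ℤ → ℤ → ℂ) : Prop :=
  SymP 11 k (k + 1) G ∧ EqC (∑ i ∈ Finset.range 11, act 1 (i * 11 ^ (k - 1)) 0 1 G) 0 ∧
    EqC (∑ i ∈ Finset.range 11, act 1 0 (i * 11 ^ k) 1 G) 0 ∧
    EqC (act 0 (-1) 11 0 G) (-G) ∧ EqC (act (-1) 0 0 1 G) G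

/-- BAL. Transport to the balanced form by `(1 0; 0 11^k)`. Model: the module for `S7Bal` (`Pool/Agent/*/S7/M_Bal.lean`; only `7 → 11`), `Pool/Agent/Helper42/W5/M_Bal.lean`. -/
def HBal : Prop := ∀ (k : ℕ) (G : ℤ → ℤ → ℂ), 1 ≤ k →
  (NewSymP 11 (2 * k) G → BalE k (act 1 0 0 (11 ^ k) G)) ∧
  (NewSymP 11 (2 * k + 1) G → BalO k (act 1 0 0 (11 ^ k) G)) ∧
  (Homog G → EqC (act 1 0 0 (11 ^ k) G) 0 → EqC G 0)

/-! ### Functions on the plane `(ZMod (11^m))²` -/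

/-- The plane. -/
abbrev Pt (m : ℕ) : Type := ZMod (11 ^ m) × ZMod (11 ^ m)

/-- Right translation by `(a 11^μ b; 11c d)`, on points: `(x, y) ↦ ((b + d x)/(a + 11^(μ+1) c x), (c + a y)/(d + 11^(μ+1) b y))`. -/
def trp (μ : ℕ) (a b c d : ℤ) {m : ℕ} (p : Pt m) : Pt m :=
  (((b : ZMod (11 ^ m)) + d * p.1) * ((a : ZMod (11 ^ m)) + 11 ^ (μ + 1) * c * p.1)⁻¹,
    ((c : ZMod (11 ^ m)) + a * p.2) * ((d : ZMod (11 ^ m)) + 11 ^ (μ + 1) * b * p.2)⁻¹)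

/-- `(x, y) ↦ (-x, -y)`. -/
def ng {m : ℕ} (p : Pt m) : Pt m := (-p.1, -p.2)

/-- `(x, y) ↦ (y, x)`. -/
def sw {m : ℕ} (p : Pt m) : Pt m := (p.2, p.1)

/-- The vertical line: `(x, y) ↦ (-1-x, -y/(1+11^(μ+1) y))`. -/
def dR (μ : ℕ) {m : ℕ} (p : Pt m) : Pt m := trp μ 1 (-1) 0 1 (ng p)

/-- Odd exponent (`μ = 0`): the circle around `1/2`, matrix `(11 -5; 22 -11) = b (2 -1; 11 -5)`. -/
def cO {m : ℕ} (p : Pt m) : Pt m := trp 0 2 (-1) 1 (-5) (sw p)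

/-- Odd exponent: the rotation of order two which exchanges `∞` and `1/3`, matrix `(11 -4; 33 -11)`, `b * (3 -1; -11 4) = -(11 -4; 33 -11)`. -/
def rO {m : ℕ} (p : Pt m) : Pt m := trp 0 3 (-1) (-1) 4 (ng (sw p))

/-- Even exponent (`μ = 1`): the circle around `11/2`, matrix `(11 -60; 2 -11) = b (2 -11; 11 -60)` (fixes `5`, `6`). -/
def c5 {m : ℕ} (p : Pt m) : Pt m := trp 1 2 (-1) 1 (-60) (sw p)

/-- Even exponent: the circle over `[5/4, 3/2]`, matrix `(11 -15; 8 -11) = b (8 -11; 11 -15)`. -/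
def cN {m : ℕ} (p : Pt m) : Pt m := trp 1 8 (-1) 1 (-15) (sw p)

/-- Even exponent: the circle over `[10/3, 4]`, matrix `(11 -40; 3 -11) = b (3 -11; 11 -40)`. -/
def cK {m : ℕ} (p : Pt m) : Pt m := trp 1 3 (-1) 1 (-40) (sw p)

/-- Even exponent: the circle over `[5/2, 3]`, matrix `(11 -30; 4 -11) = b (4 -11; 11 -30)`. -/
def cA {m : ℕ} (p : Pt m) : Pt m := trp 1 4 (-1) 1 (-30) (sw p)

/-- Even exponent: the circle over `[5/3, 2]`, matrix `(11 -20; 6 -11) = b (6 -11; 11 -20)`. -/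
def cB {m : ℕ} (p : Pt m) : Pt m := trp 1 6 (-1) 1 (-20) (sw p)

/-- Even exponent: the rotation of order two which exchanges `4` and `9/2`, matrix `(22 -97; 5 -22)`, `b * (5 -22; -22 97) = -(22 -97; 5 -22)`. -/
def rC {m : ℕ} (p : Pt m) : Pt m := trp 1 5 (-2) (-2) 97 (ng (sw p))

/-- Even exponent: the rotation of order two which exchanges `7/2` and `10/3`, matrix `(44 -149; 13 -44)`, `b * (13 -44; -44 149) = -(44 -149; 13 -44)`. -/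
def rD {m : ℕ} (p : Pt m) : Pt m := trp 1 13 (-4) (-4) 149 (ng (sw p))

/-- Even exponent: the matrix `(-36 121; -11 37) = * (36 -121; -11 37)`, which maps `7/2` to `10/3` and `10/3` to `3` (not an involution). -/
def gD {m : ℕ} (p : Pt m) : Pt m := trp 1 36 (-11) (-1) 37 (ng p)

/-- Even exponent: the matrix `(11 -27; 9 -22)`, `b * (9 -22; -11 27) = -(11 -27; 9 -22)`, which maps `5/2` to `1` and `2` to `5/4` (not an involution). -/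
def gE {m : ℕ} (p : Pt m) : Pt m := trp 1 9 (-2) (-1) 27 (ng (sw p))

/-- Even exponent: the matrix `(33 -52; 7 -11)`, `b * (7 -11; -33 52) = -(33 -52; 7 -11)`, which maps `5/3` to `9/2` and `3/2` to `5` (not an involution). -/
def gF {m : ℕ} (p : Pt m) : Pt m := trp 1 7 (-1) (-3) 52 (ng (sw p))

/-- The map `r` is an involution. -/
def Iv {m : ℕ} (r : Pt m → Pt m) : Prop := ∀ p, r (r p) = p

/-- The maps `r`, `r'` are commuting involutions. -/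
def Kl {m : ℕ} (r r' : Pt m → Pt m) : Prop :=
  (∀ p, r (r p) = p) ∧ (∀ p, r' (r' p) = p) ∧ ∀ p, r (r' p) = r' (r p)

/-- `φ` has derivative `s` modulo `11`. -/
def Dv {m : ℕ} (s : ℤ) (φ : ZMod (11 ^ m) → ZMod (11 ^ m)) : Prop :=
  ∀ (i : ℕ) (x x' : ZMod (11 ^ m)), (11 : ZMod (11 ^ m)) ^ i ∣ x - x' →
    (11 : ZMod (11 ^ m)) ^ (i + 1) ∣ φ x - φ x' - s * (x - x')

/-- Type `0`: `(x, y) ↦ (φ x, φ' y)` with derivatives `s`, `s'` different from `0` and `1` modulo `11`; type `1`: `(x, y) ↦ (ψ y, ψ' x)` with derivatives prime to `11`. -/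
def Ty {m : ℕ} (n : ℕ) (r : Pt m → Pt m) : Prop :=
  (n = 0 ∧ ∃ (s s' : ℤ) (φ φ' : ZMod (11 ^ m) → ZMod (11 ^ m)), ¬ (11 : ℤ) ∣ s ∧ ¬ (11 : ℤ) ∣ s - 1 ∧ ¬ (11 : ℤ) ∣ s' ∧
    ¬ (11 : ℤ) ∣ s' - 1 ∧ Dv s φ ∧ Dv s' φ' ∧ ∀ p, r p = (φ p.1, φ' p.2)) ∨
  (n = 1 ∧ ∃ (s s' : ℤ) (ψ ψ' : ZMod (11 ^ m) → ZMod (11 ^ m)), ¬ (11 : ℤ) ∣ s ∧ ¬ (11 : ℤ) ∣ s' ∧ Dv s ψ ∧ Dv s' ψ' ∧
    ∀ p, r p = (ψ p.2, ψ' p.1))

/-- TYP. The maps above and their types. Proof as `S7Typ` (`Pool/Agent/*/S7/M_Typ.lean`), `Pool/Agent/Helper75/TK7/M_TYPK7.lean`: `trp μ M' (trp μ M p) = trp μ (M M') p` (denominators are units as `11 ∤ a, d`; `trp` does not change under scalars prime to `11`), `sw (trp μ a b c d p) = trp μ d c b a (sw p)`,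
`ng (trp μ a b c d p) = trp μ a (-b) (-c) d (ng p)`, `sw (sw p) = p`, `ng (sw p) = sw (ng p)`; so all relations are identities of matrices up to a scalar (`rO (sw p) = cO (rO p)`). Derivatives: `1/a²`, `1/d²` modulo `11`, all prime to `11`; type `0` only for `ng`, `dR` (`-1, -1`) and `gD` (`36 ≡ 3`, `37 ≡ 4`: `1/9 ≡ 5`, `1/16 ≡ 9`). (Generator: /team-store/typgen.py.) -/
def HTyp : Prop := ∀ m : ℕ,
  (Kl (ng : Pt m → Pt m) sw ∧ Ty 0 (ng : Pt m → Pt m) ∧ Ty 1 (sw : Pt m → Pt m) ∧ Ty 1 (fun p : Pt m => ng (sw p))) ∧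
  (Kl (dR 0 : Pt m → Pt m) cO ∧ Ty 0 (dR 0 : Pt m → Pt m) ∧ Ty 1 (cO : Pt m → Pt m) ∧ Ty 1 (fun p : Pt m => dR 0 (cO p))) ∧
  ((Iv (rO : Pt m → Pt m) ∧ Ty 1 (rO : Pt m → Pt m)) ∧ ∀ p : Pt m, rO (sw p) = cO (rO p)) ∧
  (Kl (dR 1 : Pt m → Pt m) c5 ∧ Ty 0 (dR 1 : Pt m → Pt m) ∧ Ty 1 (c5 : Pt m → Pt m) ∧ Ty 1 (fun p : Pt m => dR 1 (c5 p))) ∧
  ((Iv (cN : Pt m → Pt m) ∧ Ty 1 (cN : Pt m → Pt m)) ∧ (Iv (cK : Pt m → Pt m) ∧ Ty 1 (cK : Pt m → Pt m)) ∧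
    (Iv (cA : Pt m → Pt m) ∧ Ty 1 (cA : Pt m → Pt m)) ∧ (Iv (cB : Pt m → Pt m) ∧ Ty 1 (cB : Pt m → Pt m)) ∧
    (Iv (rC : Pt m → Pt m) ∧ Ty 1 (rC : Pt m → Pt m)) ∧ (Iv (rD : Pt m → Pt m) ∧ Ty 1 (rD : Pt m → Pt m))) ∧
  (Ty 0 (gD : Pt m → Pt m) ∧ Ty 1 (gE : Pt m → Pt m) ∧ Ty 1 (gF : Pt m → Pt m))

/-- Functions on the plane with vanishing sums over the translates by multiples of `11^(m-1)`, in both variables. -/
def anti11 (m : ℕ) : Submodule ℂ (Pt m → ℂ) where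
  carrier := {F | ∀ p : Pt m, ∑ i ∈ Finset.range 11, F (p.1 + i * 11 ^ (m - 1), p.2) = 0 ∧
    ∑ i ∈ Finset.range 11, F (p.1, p.2 + i * 11 ^ (m - 1)) = 0}
  add_mem' := by
    intro F F' h h' p
    simp only [Pi.add_apply, Finset.sum_add_distrib, (h p).1, (h p).2, (h' p).1, (h' p).2, add_zero,
      and_self]
  zero_mem' := by intro p; simp
  smul_mem' := by
    intro c F h p
    simp only [Pi.smul_apply, ← Finset.smul_sum, (h p).1, (h p).2, smul_zero, and_self]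

/-- Functions of `anti11 m` with `F∘r = e F`. -/
def inv1 {m : ℕ} (r : Pt m → Pt m) (e : ℂ) : Submodule ℂ (Pt m → ℂ) where
  carrier := {F | F ∈ anti11 m ∧ ∀ p : Pt m, F (r p) = e * F p}
  add_mem' := by
    rintro F F' ⟨h0, h⟩ ⟨h0', h'⟩
    refine ⟨(anti11 m).add_mem h0 h0', fun p => ?_⟩
    simp only [Pi.add_apply, h p, h' p, mul_add]
  zero_mem' := ⟨(anti11 m).zero_mem, by intro p; simp⟩
  smul_mem' := by
    rintro c F ⟨h0, h⟩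
    refine ⟨(anti11 m).smul_mem c h0, fun p => ?_⟩
    simp only [Pi.smul_apply, smul_eq_mul, h p]
    ring

/-- Functions of `anti11 m` with `F∘r = e F`, `F∘r' = e' F`. -/
def inv11 {m : ℕ} (r r' : Pt m → Pt m) (e e' : ℂ) : Submodule ℂ (Pt m → ℂ) where
  carrier := {F | F ∈ anti11 m ∧ ∀ p : Pt m, F (r p) = e * F p ∧ F (r' p) = e' * F p}
  add_mem' := by
    rintro F F' ⟨h0, h⟩ ⟨h0', h'⟩
    refine ⟨(anti11 m).add_mem h0 h0', fun p => ?_⟩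
    simp only [Pi.add_apply, (h p).1, (h p).2, (h' p).1, (h' p).2, mul_add, and_self]
  zero_mem' := ⟨(anti11 m).zero_mem, by intro p; simp⟩
  smul_mem' := by
    rintro c F ⟨h0, h⟩
    refine ⟨(anti11 m).smul_mem c h0, fun p => ?_⟩
    simp only [Pi.smul_apply, smul_eq_mul, (h p).1, (h p).2]
    constructor <;> ring

/-- The content of DIMK. -/
def HDimK : Prop := ∀ m : ℕ, 1 ≤ m → Module.finrank ℂ (anti11 m) = 100 * 121 ^ (m - 1) ∧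
  (∀ (r : Pt m → Pt m) (e : ℤ), Iv r → Ty 1 r → (e = 1 ∨ e = -1) →
    2 * (Module.finrank ℂ (inv1 r (e : ℂ)) : ℤ) = 100 * 121 ^ (m - 1) + e * (10 * 11 ^ (m - 1))) ∧
  (∀ (r r' : Pt m → Pt m) (n n' n'' : ℕ) (e e' : ℤ), Kl r r' → Ty n r → Ty n' r' →
    Ty n'' (fun p => r (r' p)) → (e = 1 ∨ e = -1) → (e' = 1 ∨ e' = -1) →
    4 * (Module.finrank ℂ (inv11 r r' (e : ℂ) (e' : ℂ)) : ℤ) =
      100 * 121 ^ (m - 1) + (e * n + e' * n' + e * e' * n'') * (10 * 11 ^ (m - 1)))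

/-- DIMK (from TRQ). Dimensions by fixed points; the first three parts of `S7DimK` with `11` in place of `7` (`w 0 = 10/11`, `w i = -1/11`). Model (port): `Pool/Agent/Helper71/S7/M_DimK.lean`. -/
def StHDimK : Prop := Pool.Agent.Helper78.W3.S3Trq → HDimK

/-- SPLIT. Every function of `anti11 m` (`m ≥ 1`) is the sum of one invariant under `ng` and one invariant under `dR μ`. Model (port, `7 → 11`): `Pool/Agent/Helper36/S7/M_Split.lean`. -/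
def HSplit : Prop := ∀ (μ m : ℕ), 1 ≤ m → ∀ φ ∈ anti11 m, ∃ f ∈ anti11 m, ∃ l ∈ anti11 m,
  (∀ p, f (ng p) = f p) ∧ (∀ p, l (dR μ p) = l p) ∧ ∀ p, f p + l p = φ p

/-- The target for odd exponents: `((f, l), e)`, the values `{∞, 0}`, `{∞, 1/2}`, `{∞, 1/3}`. -/
def subO (m : ℕ) : Submodule ℂ (((Pt m → ℂ) × (Pt m → ℂ)) × (Pt m → ℂ)) where
  carrier := {F | F.1.1 ∈ inv11 (m := m) ng sw 1 1 ∧ F.1.2 ∈ inv11 (m := m) (dR 0) cO 1 1 ∧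
    F.2 ∈ inv1 (m := m) rO 1 ∧
    ∀ p : Pt m, F.2 p + F.2 (sw p) - F.1.2 (rO p) - F.1.1 p = 0}
  add_mem' := by
    rintro F F' ⟨h0, h1, h2, h⟩ ⟨h0', h1', h2', h'⟩
    refine ⟨Submodule.add_mem _ h0 h0', Submodule.add_mem _ h1 h1', Submodule.add_mem _ h2 h2',
      fun p => ?_⟩
    have a1 := h p
    have b1 := h' p
    simp only [Prod.fst_add, Prod.snd_add, Pi.add_apply] at a1 b1 ⊢
    linear_combination a1 + b1
  zero_mem' := ⟨Submodule.zero_mem _, Submodule.zero_mem _, Submodule.zero_mem _, by intro p; simp⟩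
  smul_mem' := by
    rintro c F ⟨h0, h1, h2, h⟩
    refine ⟨Submodule.smul_mem _ c h0, Submodule.smul_mem _ c h1, Submodule.smul_mem _ c h2,
      fun p => ?_⟩
    have a1 := h p
    simp only [Prod.smul_fst, Prod.smul_snd, Pi.smul_apply, smul_eq_mul] at a1 ⊢
    linear_combination c * a1

/-- The value `{3/2, 1}` in terms of `F2 = {∞, 2}`, `F3 = {∞, 3}`, `N = {3/2, 5/4}`, `A = {3, 5/2}`. -/
def nnF {m : ℕ} (F2 F3 N A : Pt m → ℂ) (p : Pt m) : ℂ := N p + F2 (gE p) - F3 (gE p) - A (gE p)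

/-- The value `{5/3, 3/2}` (`F1 = {∞, 1}`, `B = {2, 5/3}`). -/
def bbF {m : ℕ} (F1 F2 F3 N A B : Pt m → ℂ) (p : Pt m) : ℂ := F1 p - F2 p - nnF F2 F3 N A p - B p

/-- The value `{∞, 5}` (`C = {9/2, 4}`, `K = {4, 10/3}`, `D = {7/2, 10/3}`). -/
def ssF {m : ℕ} (F1 F2 F3 N A B C K D : Pt m → ℂ) (p : Pt m) : ℂ :=
  F3 p - K p - D (gD p) - C p - bbF F1 F2 F3 N A B (gF p)

/-- `F + F∘r' - F∘r - F∘r∘r'`. -/
def alt {m : ℕ} (r r' : Pt m → Pt m) (F : Pt m → ℂ) (p : Pt m) : ℂ := F p + F (r' p) - F (r p) - F (r (r' p))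

/-- The nine functions `((((F1, F2), (F3, N)), ((A, B), (C, K))), D)`. -/
abbrev Fn9 (m : ℕ) : Type := ((((Pt m → ℂ) × (Pt m → ℂ)) × ((Pt m → ℂ) × (Pt m → ℂ))) ×
  (((Pt m → ℂ) × (Pt m → ℂ)) × ((Pt m → ℂ) × (Pt m → ℂ)))) × (Pt m → ℂ)

/-- The target for even exponents: the values `{∞, 1}`, `{∞, 2}`, `{∞, 3}`, `{3/2, 5/4}`, `{3, 5/2}`, `{2, 5/3}`, `{9/2, 4}`, `{4, 10/3}`, `{7/2, 10/3}`. -/
def subE (m : ℕ) : Submodule ℂ (Fn9 m) where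
  carrier := {F | (F.1.1.1.1 ∈ anti11 m ∧ F.1.1.1.2 ∈ anti11 m ∧ F.1.1.2.1 ∈ anti11 m ∧ F.1.1.2.2 ∈ inv1 (m := m) cN (-1)) ∧
    (F.1.2.1.1 ∈ inv1 (m := m) cA (-1) ∧ F.1.2.1.2 ∈ inv1 (m := m) cB (-1) ∧ F.1.2.2.1 ∈ inv1 (m := m) rC 1 ∧
      F.1.2.2.2 ∈ inv1 (m := m) cK (-1) ∧ F.2 ∈ inv1 (m := m) rD 1) ∧
    (∀ p : Pt m, alt ng sw F.1.1.1.1 p = 0) ∧
    (∀ p : Pt m, alt (dR 1) c5 (ssF F.1.1.1.1 F.1.1.1.2 F.1.1.2.1 F.1.1.2.2 F.1.2.1.1 F.1.2.1.2 F.1.2.2.1 F.1.2.2.2 F.2) p = 0)}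
  add_mem' := by
    rintro F F' ⟨⟨h0, h1, h2, h3⟩, ⟨h4, h5, h6, h7, h8⟩, e0, e1⟩ ⟨⟨h0', h1', h2', h3'⟩, ⟨h4', h5', h6', h7', h8'⟩, e0', e1'⟩
    refine ⟨⟨(anti11 m).add_mem h0 h0', (anti11 m).add_mem h1 h1', (anti11 m).add_mem h2 h2', Submodule.add_mem _ h3 h3'⟩,
      ⟨Submodule.add_mem _ h4 h4', Submodule.add_mem _ h5 h5', Submodule.add_mem _ h6 h6', Submodule.add_mem _ h7 h7',
        Submodule.add_mem _ h8 h8'⟩, fun p => ?_, fun p => ?_⟩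
    · have a := e0 p
      have b := e0' p
      simp only [alt, Prod.fst_add, Prod.snd_add, Pi.add_apply] at a b ⊢
      linear_combination a + b
    · have a := e1 p
      have b := e1' p
      simp only [alt, ssF, bbF, nnF, Prod.fst_add, Prod.snd_add, Pi.add_apply] at a b ⊢
      linear_combination a + b
  zero_mem' := ⟨⟨(anti11 m).zero_mem, (anti11 m).zero_mem, (anti11 m).zero_mem, Submodule.zero_mem _⟩,
    ⟨Submodule.zero_mem _, Submodule.zero_mem _, Submodule.zero_mem _, Submodule.zero_mem _, Submodule.zero_mem _⟩,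
    by intro p; simp [alt], by intro p; simp [alt, ssF, bbF, nnF]⟩
  smul_mem' := by
    rintro c F ⟨⟨h0, h1, h2, h3⟩, ⟨h4, h5, h6, h7, h8⟩, e0, e1⟩
    refine ⟨⟨(anti11 m).smul_mem c h0, (anti11 m).smul_mem c h1, (anti11 m).smul_mem c h2, Submodule.smul_mem _ c h3⟩,
      ⟨Submodule.smul_mem _ c h4, Submodule.smul_mem _ c h5, Submodule.smul_mem _ c h6, Submodule.smul_mem _ c h7,
        Submodule.smul_mem _ c h8⟩, fun p => ?_, fun p => ?_⟩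
    · have a := e0 p
      simp only [alt, Prod.smul_fst, Prod.smul_snd, Pi.smul_apply, smul_eq_mul] at a ⊢
      linear_combination c * a
    · have a := e1 p
      simp only [alt, ssF, bbF, nnF, Prod.smul_fst, Prod.smul_snd, Pi.smul_apply, smul_eq_mul] at a ⊢
      linear_combination c * a

/-- The content of DIMO. -/
def HDimO : Prop := ∀ m : ℕ, 1 ≤ m →
  Module.finrank ℂ (subO m) = 50 * 121 ^ (m - 1) + 10 * 11 ^ (m - 1)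

/-- DIMO (from TYP, DIMK, SPLIT). `a = 121^(m-1)`, `b = 11^(m-1)`. `Vf = inv11 ng sw 1 1`, `Vl = inv11 (dR 0) cO 1 1` have dimension `25a + 5b` (types `0, 1, 1`), `Ve = inv1 rO 1`, `VW = inv1 sw 1` have `50a + 5b`. The map `((f, l), e) ↦ e + e∘sw - l∘rO - f` from `(Vf × Vl) × Ve` to `VW` (`l∘rO∘sw = l∘cO∘rO = l∘rO`) is onto: for `φ` in `VW` let
(SPLIT, `μ = 0`) `φ/2 = f0 + l0`, `f0` invariant under `ng`, `l0` under `dR 0`; take `f = -(f0 + f0∘sw)`, `l = l0 + l0∘cO`, `e = l0 + l0∘rO` (`ng` commutes with `sw`, `dR 0` with `cO`). Then `e + e∘sw = l0 + l0∘rO + l0∘sw + l0∘cO∘rO` and `l∘rO = l0∘rO + l0∘cO∘rO`, so the image is `(1 + sw)(l0 + f0) = φ`. The kernel is `subO m`: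
`(25a+5b)·2 + (50a+5b) - (50a+5b)`. Models: `Pool/Agent/Helper71/Q5P7/M_DIMO.lean`, the module for `S7DimO`. -/
def StHDimO : Prop := HTyp → HDimK → HSplit → HDimO

/-- The content of DIME. -/
def HDimE : Prop := ∀ m : ℕ, 1 ≤ m → Module.finrank ℂ (subE m) = 550 * 121 ^ (m - 1) - 10 * 11 ^ (m - 1)

/-- DIME (from TYP, DIMK, SPLIT). `V = anti11 m` has dimension `100a`, `inv1 r (-1)` for `r = cN, cA, cB, cK` has `50a - 5b`, `inv1 r 1` for `r = rC, rD` has `50a + 5b`, `T0 = inv11 ng sw (-1) 1`, `T5 = inv11 (dR 1) c5 (-1) 1` have `25a` (types `0, 1, 1`: `0 + 1 - 1`). The map `F ↦ (alt ng sw F1, alt (dR 1) c5 S)`,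
`S = ssF F1 F2 F3 N A B C K D`, from the product of the nine spaces to `T0 × T5` (`alt r r' F` is invariant under `r'` and changes sign under `r` for commuting involutions `r`, `r'`; composition with maps of type `0`, `1` preserves `anti11 m`) is onto: for `(φ, ψ)` let (SPLIT, `μ = 1`) `φ/4 = f1 + l1`, `ψ/4 = f2 + l2`, `f1, f2` invariant under
`ng`, `l1, l2` under `dR 1`; take `F1 = F2 = F3 = l1 + f2` and all others `0`. Then `nnF = 0`, `bbF = 0`, `S = F3`, and `alt ng sw (l1 + f2) = alt ng sw (φ/4) = φ` (`alt ng sw f = 0` for `f` invariant under `ng`, which commutes with `sw`), `alt (dR 1) c5 (l1 + f2) = alt (dR 1) c5 (ψ/4) = ψ` (`alt (dR 1) c5 l = 0`). The kernel is `subE m`: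
`3·100a + 4(50a-5b) + 2(50a+5b) - 2·25a = 550a - 10b`. Models: `Pool/Agent/Helper39/Q5P7/M_DIME.lean` (a product of spaces and two relations), the module for `S7DimE`. -/
def StHDimE : Prop := HTyp → HDimK → HSplit → HDimE

/-! ### Representatives -/

/-- The 132 representatives of the classes of `SL₂(ℤ)` modulo `(* 11*; 11* *)`. -/
def LE : List (ℤ × ℤ × ℤ × ℤ) :=
  [(-3, -7, 1, 2), (-3, -10, 1, 3), (-1, -2, 1, 1), (3, 1, 2, 1), (-3, 1, 2, -1), (-3, -5, 2, 3), (3, -7, 1, -2), (0, -1, 1, 1), (0, -1, 1, -2),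
   (9, 4, 2, 1), (0, -1, 1, -5), (5, -3, 2, -1), (1, 0, 5, 1), (-1, 1, 3, -4), (-5, -2, 3, 1), (9, -5, 2, -1), (5, 4, 1, 1), (0, -1, 1, 5),
   (2, -3, 1, -1), (7, 3, 2, 1), (-5, -3, 2, 1), (1, -2, 2, -3), (-1, 5, 0, -1), (1, 0, 4, 1), (-1, -3, 0, -1), (-5, 2, 2, -1), (-2, -3, 1, 1),
   (1, -1, 5, -4), (-5, -1, 1, 0), (2, 3, 1, 2), (-5, 9, 1, -2), (-5, -6, 1, 1), (4, -1, 1, 0), (-3, -2, 2, 1), (5, -1, 1, 0), (-1, -5, 1, 4),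
   (-1, 1, 1, -2), (2, 1, 3, 2), (-9, 4, 2, -1), (-4, -1, 1, 0), (1, 1, 3, 4), (-2, -1, 1, 0), (1, 1, 4, 5), (-1, -5, 0, -1), (-1, -2, 0, -1),
   (3, -1, 1, 0), (-1, 3, 0, -1), (3, -2, 2, -1), (1, 0, 1, 1), (-2, -5, 1, 2), (-1, 2, 0, -1), (-2, 1, 1, -1), (1, -3, 1, -2), (0, -1, 1, 4),
   (-1, 0, 4, -1), (-10, 3, 3, -1), (1, 2, 1, 3), (5, -2, 3, -1), (1, 3, 1, 4), (-3, -1, 4, 1), (-9, -5, 2, 1), (1, 0, 3, 1), (2, -5, 1, -2),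
   (4, -9, 1, -2), (-1, -1, 4, 3), (-5, 1, 4, -1), (3, -1, 4, -1), (-3, -4, 1, 1), (-2, 5, 1, -3), (2, -1, 3, -1), (1, -1, 2, -1), (5, 9, 1, 2),
   (2, 1, 1, 1), (4, 3, 1, 1), (3, 2, 1, 1), (-1, -1, 0, -1), (1, 1, 2, 3), (-1, 3, 1, -4), (3, -10, 1, -3), (10, 3, 3, 1), (1, 0, 2, 1),
   (-1, -4, 0, -1), (1, 1, 1, 2), (-1, 0, 1, -1), (-1, 1, 0, -1), (0, -1, 1, -3), (3, -4, 1, -1), (1, -5, 1, -4), (-7, 3, 2, -1), (-1, 0, 0, -1),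
   (-2, 1, 3, -2), (0, -1, 1, 2), (-1, 1, 2, -3), (-1, 0, 3, -1), (1, -1, 1, 0), (-1, 1, 4, -5), (-1, 2, 1, -3), (-5, 4, 1, -1), (-1, 0, 5, -1),
   (5, 3, 3, 2), (3, 5, 1, 2), (2, -1, 1, 0), (1, -1, 4, -3), (3, -5, 2, -3), (2, 5, 1, 3), (-5, 3, 3, -2), (-1, -1, 5, 4), (-2, 3, 1, -2),
   (4, -5, 1, -1), (-6, 5, 1, -1), (5, 1, 4, 1), (-1, 0, 2, -1), (1, -2, 1, -1), (0, -1, 1, -1), (-3, -1, 1, 0), (-3, 5, 1, -2), (-3, 2, 1, -1),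
   (1, -1, 3, -2), (-1, -3, 1, 2), (0, -1, 1, 3), (-4, -9, 1, 2), (5, 2, 2, 1), (-1, -1, 3, 2), (-2, -1, 3, 1), (0, -1, 1, -4), (-1, -2, 2, 3),
   (-1, 4, 0, -1), (-4, -5, 1, 1), (0, -1, 1, 0), (-1, -1, 2, 1), (-1, -1, 1, 0), (-4, 3, 1, -1)]

/-- The twelve representatives of `Γ₀(11) \ SL₂(ℤ)`. -/
def LO : List (ℤ × ℤ × ℤ × ℤ) :=
  [(0, -1, 1, 0), (-1, 0, 1, -1), (1, 0, 2, 1), (-1, 0, 2, -1), (1, 0, 3, 1), (0, -1, 1, 3), (0, -1, 1, -2), (0, -1, 1, -3), (0, -1, 1, 1),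
   (-1, 0, 3, -1), (0, -1, 1, 2), (-1, 0, 0, -1)]

/-- The content of REP. -/
def HRep : Prop := ((∀ m ∈ LE, m.1 * m.2.2.2 - m.2.1 * m.2.2.1 = 1) ∧
  ∀ a b c d : ℤ, a * d - b * c = 1 → ∃ m ∈ LE, ∃ α β γ δ : ℤ, α * δ - 121 * β * γ = 1 ∧
    a = α * m.1 + 11 * β * m.2.2.1 ∧ b = α * m.2.1 + 11 * β * m.2.2.2 ∧
    c = 11 * γ * m.1 + δ * m.2.2.1 ∧ d = 11 * γ * m.2.1 + δ * m.2.2.2) ∧
  ((∀ m ∈ LO, m.1 * m.2.2.2 - m.2.1 * m.2.2.1 = 1) ∧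
  ∀ a b c d : ℤ, a * d - b * c = 1 → ∃ m ∈ LO, ∃ α β γ δ : ℤ, α * δ - 11 * β * γ = 1 ∧
    a = α * m.1 + β * m.2.2.1 ∧ b = α * m.2.1 + β * m.2.2.2 ∧
    c = 11 * γ * m.1 + δ * m.2.2.1 ∧ d = 11 * γ * m.2.1 + δ * m.2.2.2)

/-- REP. `g' = g m⁻¹` has the off-diagonal entries `b m1 - a m2` and `c m4 - d m3`; modulo `11` there is an `m` in `LE` for which both vanish (first and second rows proportional). Normalise the rows modulo `11` to `(1, t)` or `(0, 1)` before the finite check: `12 · 11` pairs (`decide` over `ZMod 11 × ZMod 11` in four cases). For `LO` only the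
second rows. Model: the module for `S7Rep` (`Pool/Agent/*/S7/M_Rep.lean`), `Pool/Agent/Helper77/TK7/M_E1BK7.lean`. -/
def StHRep : Prop := HRep

/-- The nine functions of a symbol. -/
noncomputable def pf9 (m : ℕ) (G : ℤ → ℤ → ℂ) : Fn9 m :=
  (((((fun p : Pt m => edge11 1 1 0 1 1 G p.1 p.2), (fun p : Pt m => edge11 1 1 0 2 1 G p.1 p.2)),
    ((fun p : Pt m => edge11 1 1 0 3 1 G p.1 p.2), (fun p : Pt m => edge11 1 3 2 5 4 G p.1 p.2))),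
    (((fun p : Pt m => edge11 1 3 1 5 2 G p.1 p.2), (fun p : Pt m => edge11 1 2 1 5 3 G p.1 p.2)),
    ((fun p : Pt m => edge11 1 9 2 4 1 G p.1 p.2), (fun p : Pt m => edge11 1 4 1 10 3 G p.1 p.2)))),
    (fun p : Pt m => edge11 1 7 2 10 3 G p.1 p.2))

/-- The content of E1A. -/
def HE1a : Prop := ∀ (k : ℕ) (G : ℤ → ℤ → ℂ), 2 ≤ k → BalE k G → pf9 (k - 1) G ∈ subE (k - 1)

/-- E1A (from EDG, PLA, TYP). Even exponent, `m = k - 1`, `μ = 1`, `b = (0 1; 1 0)`: `F1 = {∞, 1}`, `F2 = {∞, 2}`, `F3 = {∞, 3}`, `N = {3/2, 5/4}`, `A = {3, 5/2}`, `B = {2, 5/3}`, `C = {9/2, 4}`, `K = {4, 10/3}`, `D = {7/2, 10/3}`. (i) `anti11`: `(1 i11^(k-1); 0 1) g` has coordinates `(x + i 11^(k-2), y)`,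
`(1 0; i11^(k-1) 1) g` has `(x, y + i 11^(k-2))` for standard `g`. (ii) By the rule at the head of this file: `N(cN p) = -N(p)` (`(11 -15; 8 -11)` fixes `3/2`, `5/4`), `A(cA p) = -A(p)` (`(11 -30; 4 -11)` fixes `3`, `5/2`), `B(cB p) = -B(p)` (`(11 -20; 6 -11)` fixes `2`, `5/3`), `K(cK p) = -K(p)` (`(11 -40; 3 -11)` fixes `4`, `10/3`),
`C(rC p) = -{4, 9/2} = C(p)`, `D(rD p) = -{10/3, 7/2} = D(p)`. (iii) Square `∞, 1, 0, -1`: `F1(p) = {∞,1}`, `F1(sw p) = -{0,1}`, `F1(ng p) = {∞,-1}`, `F1(ng (sw p)) = -{0,-1}`: `alt ng sw F1 = {∞,1} - {0,1} - {∞,-1} + {0,-1} = 0`. (iv) `F2 - F3 - A = {∞,2} - {∞,3} - {3,5/2} = {5/2, 2}`, its value at `gE p` is `-{1, 5/4}` (`(11 -27; 9 -22)`),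
so `nnF p = {3/2,5/4} + {5/4,1} = {3/2, 1}`; `bbF p = {∞,1} - {∞,2} - {3/2,1} - {2,5/3} = {5/3, 3/2}`. (v) `D(gD p) = {10/3, 3}` (`(-36 121; -11 37)`, no sign), so `{∞,3} - K - D∘gD = {∞, 4}`; `bbF (gF p) = -{9/2, 5}` (`(33 -52; 7 -11)`), so `ssF p = {∞,4} - {9/2,4} - {5,9/2} = {∞, 5}` (as `{u,v} = G(gu) - G(gv)`). (vi) Square `∞, 5, 11/2, 6`:
`S(p) = {∞,5}`, `S(c5 p) = -{11/2,5}`, `S(dR 1 p) = {∞,6}` (`(-1 11; 0 1)`), `S(dR 1 (c5 p)) = -{11/2,6}`: `alt (dR 1) c5 S = {∞,11/2} - {∞,11/2} = 0`. Models: `Pool/Agent/Helper16/Q5P7/M_E1A.lean`, `Pool/Agent/Helper67/TK7/M_E1AK7.lean`, the module for `S7E1`. -/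
def StHE1a : Prop := S11Edg → S11PlA → HTyp → HE1a

/-- The content of E1B. -/
def HE1b : Prop := ∀ (k : ℕ) (G : ℤ → ℤ → ℂ), 2 ≤ k → BalE k G →
  (∀ x y : ZMod (11 ^ (k - 1)), (edge11 1 1 0 1 1 G x y = 0 ∧ edge11 1 1 0 2 1 G x y = 0 ∧ edge11 1 1 0 3 1 G x y = 0) ∧
    (edge11 1 3 2 5 4 G x y = 0 ∧ edge11 1 3 1 5 2 G x y = 0 ∧ edge11 1 2 1 5 3 G x y = 0) ∧
    (edge11 1 9 2 4 1 G x y = 0 ∧ edge11 1 4 1 10 3 G x y = 0 ∧ edge11 1 7 2 10 3 G x y = 0)) → EqC G 0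

/-- E1B (from EDG, PLA, REP, FAR). Write `v ~ w` if `G(gv) = G(gw)` for all `g = (a 11b; 11c d)` of determinant one; this relation is invariant under these `g`, `*`, `b = (0 1; 1 0)` (`Pool/Agent/Helper77/TK7/M_E1BK7.lean`, `Pool/Agent/Helper44/Q5P7/M_E1B.lean`). Given: `∞ ~ 1`, `∞ ~ 2`, `∞ ~ 3`, `3/2 ~ 5/4`, `3 ~ 5/2`, `2 ~ 5/3`, `9/2 ~ 4`,
`4 ~ 10/3`, `7/2 ~ 10/3`. First `10/3 ~ 3` (`7/2 ~ 10/3` by `*`, `(36 121; 11 37)`), `1 ~ 5/4` (`5/2 ~ 2` by `b`, `*`, `(27 11; 22 9)`), `0 ~ 1` (`∞ ~ 1` by `b`): so `∞, 0, 1, 2, 3, 5/2, 5/3, 3/2, 5/4, 4, 10/3, 7/2, 9/2` are equivalent, with `*` also their negatives. Then (apply the word, then the matrix to a known equivalence): `∞ ~ 1/2` (`0 ~ 2` by `b`); `∞ ~ 1/3` (`0 ~ 3` by `b`); `∞ ~ 2/3` (`0 ~ 3/2` by `b`); `∞ ~ 1/4` (`0 ~ 4` by `b`); `-2/3 ~ -3/4` (`-3/2 ~ -1` by `(-8 -11; 11 15)`); `9/2 ~ 5` (`-5/3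 ~ -3/2` by `b`, `(-52 -33; -11 -7)`); `∞ ~ 1/5` (`0 ~ 5` by `b`); `∞ ~ -6` (`∞ ~ 5` by `(1 -11; 0 1)`). With `*`:
`∞, 0, ±1, ±1/2, ±2, ±3, ±1/3, ±3/2, ±2/3, ±3/4, ±4, ±1/4, ±5/4, ±5, ±5/3, ±1/5, ±5/2, ±6, ±7/2, ±9/2, ±10/3` are equivalent: both cusps of every matrix in `LE`; REP and FAR. -/
def StHE1b : Prop := S11Edg → S11PlA → HRep → StFar → HE1b

/-- The content of O1. -/
def HO1 : Prop := ∀ (k : ℕ) (G : ℤ → ℤ → ℂ), 1 ≤ k → BalO k G →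
  ((((fun p : Pt k => edge11 0 1 0 0 1 G p.1 p.2), (fun p : Pt k => edge11 0 1 0 1 2 G p.1 p.2)),
    (fun p : Pt k => edge11 0 1 0 1 3 G p.1 p.2)) ∈ subO k) ∧
  ((∀ x y : ZMod (11 ^ k), edge11 0 1 0 0 1 G x y = 0 ∧ edge11 0 1 0 1 2 G x y = 0 ∧
    edge11 0 1 0 1 3 G x y = 0) → EqC G 0)

/-- O1 (from EDG, PLA, TYP, REP, FAR). Odd exponent, `m = k`, `μ = 0`, `b = (0 1; 11 0)`: `f = {∞, 0}`, `l = {∞, 1/2}`, `e = {∞, 1/3}`. `f(ng p) = f(p)`, `f(sw p) = -{0, ∞} = f(p)`; `l(dR 0 p) = l(p)` (`(-1 1; 0 1)`), `l(cO p) = -{1/2, ∞} = l(p)` (`(11 -5; 22 -11)`); `e(rO p) = -{1/3, ∞} = e(p)` (`(11 -4; 33 -11)`). Quadrilateral `∞, 1/3, 3/11, 0`: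
`l(rO p) = -{1/3, 3/11}`, `e(sw p) = -{0, 3/11}`: `e + e∘sw - l∘rO - f = {∞,1/3} - {0,3/11} + {1/3,3/11} - {∞,0} = 0`. Injectivity (`~` as in E1B for `(a b; 11c d)`): given `∞ ~ 0`, `∞ ~ 1/2`, `∞ ~ 1/3`; `∞ ~ -1` (`∞ ~ 0` by `(1 -1; 0 1)`). With `*`: `0, ±1, ∞, ±1/2, ±1/3` are equivalent: both cusps of every matrix in `LO`; REP, FAR. Models: the module for `S7O1`, `Pool/Agent/Helper81/Q5P7/M_O1.lean`. -/
def StHO1 : Prop := S11Edg → S11PlA → HTyp → HRep → StFar → HO1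

/-- UB. For `n = 2k ≥ 4` the map to the nine functions in `subE (k-1)`, of dimension `dd11 n`; for `n = 2k+1 ≥ 3` the map to the three functions in `subO k`, of dimension `dd11 n`. Models: the module for `S7UBof`, `Pool/Agent/Helper60/Q5P7/M_UB.lean`. -/
def StHUB : Prop := HBal → HE1a → HE1b → HO1 → HDimE → HDimO → UBP 11 dd11

end Pool.Agent.Helper76.P11
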